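import Pool.Agent.V5helper30.FI.Main
import Pool.Agent.N496.CV.L2Pf

/-!
# `HasL2Betti K k 0` for the subgroups of finite index of the kernel, from `L2Van G k`
-/

set_option autoImplicit false

namespace Pool.Agent.V5helper30.FI

open Pool.Agent.W907.SG Pool.Agent.W461.SGN Pool.Agent.N496.CV

/-- For a subgroup `K` of finite index of the kernel of `W G → (ℤ/2)^V`, the `k`-th `L²`-Betti number of `K` vanishes
if the Davis complex of `W G` has no nonzero `ℓ²` harmonic `k`-chain (`k ≥ 1`). -/
theorem hasL2_zero {V : Type} [Fintype V] [LinearOrder V] {G : SimpleGraph V} {K : Subgroup (W G)} [K.FiniteIndex]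
    (hK : K ≤ (th G).ker) {k : ℕ} (hk : 1 ≤ k) (hvan : L2Van G k) : HasL2Betti K k 0 := by
  obtain ⟨n, rfl⟩ : ∃ n, k = n + 1 := ⟨k - 1, by omega⟩
  have h := hasL2Betti K (n + 1)
  rwa [l2Betti_zero hK hvan] at h

end Pool.Agent.V5helper30.FI
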