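import Pool.Agent.N496.CV.All
import Pool.Agent.RK.OreMat

/-!
# Subgroups of finite index: vanishing of the `L²`-Betti numbers from the vanishing of the harmonic chains

The combinatorial Laplacian on the chains with coefficients in the group von Neumann algebra.
-/

set_option autoImplicit false
set_option linter.unusedSectionVars false

noncomputable section

namespace Pool.Agent.V5helper30.FI

open Pool.Agent.W907.SG Pool.Agent.W461.SGN Pool.Agent.Helper655.VN Pool.Agent.RK
open Pool.Agent.N496.CV Pool.Agent.N496.LT

section gen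

variable {V : Type} [Fintype V] [LinearOrder V] {G : SimpleGraph V} {R : Type} [Ring R]

open Classical in
/-- the coboundary -/
def cbd (c : Finset V → W G → R) (T : Finset V) (w : W G) : R :=
  if G.IsClique (T : Set V) then
    ∑ t ∈ T, sg t (T.erase t) • (c (T.erase t) w - c (T.erase t) (w * (cox G).simple t)) else 0

/-- equivariant chains -/
structure EC (K : Subgroup (W G)) (u : K →* R) (k : ℕ) (c : Finset V → W G → R) : Prop where
  supp : ∀ T : Finset V, ¬ (G.IsClique (T : Set V) ∧ T.card = k) → c T = 0
  eqK : ∀ T (h : K) w, c T (h * w) = c T w * u h⁻¹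
  anti : ∀ T, ∀ t ∈ T, ∀ w, c T (w * (cox G).simple t) = - c T w

variable {K : Subgroup (W G)} {u : K →* R} {k : ℕ} {c : Finset V → W G → R}

theorem EC.of (h : IsCh G Set.univ (InM K u Set.univ ⊥) k c) : EC K u k c where
  supp T hT := h.supp T fun h1 => hT ⟨h1.1, h1.2.2⟩
  eqK T x w := (h.mem T).eqK x w
  anti := h.anti

theorem EC.to [Finite (Quotient (QuotientGroup.rightRel K))] (h : EC K u k c) :
    IsCh G Set.univ (InM K u Set.univ ⊥) k c where
  supp T hT := h.supp T fun h1 => hT ⟨h1.1, Set.subset_univ _, h1.2⟩
  mem T := by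
    refine ⟨fun _ _ => trivial, fun p hp w => ?_, h.eqK T, ?_⟩
    · rw [Subgroup.mem_bot] at hp
      rw [hp]
      simp
    · classical
      have : Fintype (Quotient (QuotientGroup.rightRel K)) := Fintype.ofFinite _
      refine ⟨Finset.univ.image fun q : Quotient (QuotientGroup.rightRel K) => q.out, fun w _ => ?_⟩
      have h1 : (QuotientGroup.rightRel K).r (Quotient.mk (QuotientGroup.rightRel K) w).out w :=
        Quotient.mk_out (s := QuotientGroup.rightRel K) w
      have h2 : w * ((Quotient.mk (QuotientGroup.rightRel K) w).out)⁻¹ ∈ K :=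
        QuotientGroup.rightRel_apply.1 h1
      refine ⟨⟨_, h2⟩, _, Finset.mem_image.2 ⟨Quotient.mk (QuotientGroup.rightRel K) w, Finset.mem_univ _, rfl⟩, 1,
        Subgroup.one_mem _, ?_⟩
      simp
  anti := h.anti

theorem clique_mono {T S : Finset V} (h : G.IsClique (S : Set V)) (hT : T ⊆ S) : G.IsClique (T : Set V) :=
  fun _ ha _ hb hab => h (Finset.coe_subset.2 hT ha) (Finset.coe_subset.2 hT hb) hab

theorem EC.bd (h : EC K u (k + 1) c) : EC K u k (bdf G c) where
  supp T hT := by
    funext w
    refine Finset.sum_eq_zero fun v hv => ?_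
    rw [h.supp (insert v T), Pi.zero_apply, smul_zero]
    rintro ⟨h1, h2⟩
    refine hT ⟨clique_mono h1 (Finset.subset_insert _ _), ?_⟩
    rw [Finset.card_insert_of_notMem (Finset.mem_compl.1 hv)] at h2
    omega
  eqK T x w := by
    unfold bdf
    rw [Finset.sum_mul]
    refine Finset.sum_congr rfl fun v _ => ?_
    rw [h.eqK, smul_mul_assoc]
  anti T t ht w := by
    unfold bdf
    rw [← Finset.sum_neg_distrib]
    refine Finset.sum_congr rfl fun v _ => ?_
    rw [h.anti _ t (Finset.mem_insert_of_mem ht), smul_neg]

theorem EC.cb (h : EC K u k c) : EC K u (k + 1) (cbd c) where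
  supp T hT := by
    funext w
    unfold cbd
    split_ifs with h1
    · refine Finset.sum_eq_zero fun t ht => ?_
      rw [h.supp (T.erase t)]
      · simp
      · rintro ⟨-, h3⟩
        apply hT
        refine ⟨h1, ?_⟩
        rw [← Finset.card_erase_add_one ht, h3]
    · rfl
  eqK T x w := by
    unfold cbd
    split_ifs with h1
    · rw [Finset.sum_mul]
      refine Finset.sum_congr rfl fun v _ => ?_
      rw [mul_assoc, h.eqK, h.eqK, smul_mul_assoc, sub_mul]
    · rw [zero_mul]
  anti T t ht w := by
    unfold cbd
    split_ifs with h1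
    · rw [← Finset.sum_neg_distrib]
      refine Finset.sum_congr rfl fun s hs => ?_
      by_cases hst : s = t
      · subst hst
        rw [mul_assoc, simple_mul_self, mul_one, ← smul_neg, neg_sub]
      · have h2 : G.Adj t s := h1 (Finset.mem_coe.2 ht) (Finset.mem_coe.2 hs) (Ne.symm hst)
        have h3 : t ∈ T.erase s := Finset.mem_erase.2 ⟨Ne.symm hst, ht⟩
        rw [mul_assoc, simple_comm G t s h2, ← mul_assoc, h.anti _ t h3, h.anti _ t h3, ← smul_neg, neg_sub]
        congr 1
        abel
    · rw [neg_zero]

theorem cbd_add (c d : Finset V → W G → R) : cbd (c + d) = cbd c + cbd d := by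
  funext T w
  simp only [Pi.add_apply]
  unfold cbd
  split_ifs with h1
  · rw [← Finset.sum_add_distrib]
    refine Finset.sum_congr rfl fun t _ => ?_
    simp only [Pi.add_apply]
    rw [← smul_add]
    congr 1
    abel
  · rw [add_zero]

theorem cbd_mul (r : R) (c : Finset V → W G → R) : cbd (fun T w => r * c T w) = fun T w => r * cbd c T w := by
  funext T w
  unfold cbd
  split_ifs with h1
  · rw [Finset.mul_sum]
    refine Finset.sum_congr rfl fun t _ => ?_
    rw [mul_smul_comm, mul_sub]
  · rw [mul_zero]

theorem bdf_mul (r : R) (c : Finset V → W G → R) : bdf G (fun T w => r * c T w) = fun T w => r * bdf G c T w := by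
  funext T w
  unfold bdf
  rw [Finset.mul_sum]
  refine Finset.sum_congr rfl fun t _ => ?_
  rw [mul_smul_comm]

theorem bdf_add' (c d : Finset V → W G → R) : bdf G (c + d) = bdf G c + bdf G d := by
  funext T w
  unfold bdf
  simp only [Pi.add_apply]
  rw [← Finset.sum_add_distrib]
  exact Finset.sum_congr rfl fun t _ => smul_add _ _ _

/-- the Laplacian -/
def lap (c : Finset V → W G → R) : Finset V → W G → R := bdf G (cbd c) + cbd (bdf G c)

theorem lap_add (c d : Finset V → W G → R) : lap (c + d) = lap c + lap d := by
  unfold lap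
  rw [cbd_add, bdf_add', bdf_add', cbd_add]
  abel

theorem lap_mul (r : R) (c : Finset V → W G → R) : lap (fun T w => r * c T w) = fun T w => r * lap c T w := by
  unfold lap
  rw [cbd_mul, bdf_mul, bdf_mul, cbd_mul]
  funext T w
  simp only [Pi.add_apply]
  rw [mul_add]

theorem EC.add {d : Finset V → W G → R} (h : EC K u k c) (h' : EC K u k d) : EC K u k (c + d) where
  supp T hT := by rw [Pi.add_apply, h.supp T hT, h'.supp T hT, add_zero]
  eqK T x w := by
    simp only [Pi.add_apply]
    rw [h.eqK, h'.eqK, add_mul]
  anti T t ht w := by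
    simp only [Pi.add_apply]
    rw [h.anti T t ht, h'.anti T t ht, neg_add]

theorem EC.lap (h : EC K u (k + 1) c) : EC K u (k + 1) (lap c) := (h.cb.bd).add h.bd.cb

theorem EC.mul (h : EC K u k c) (r : R) : EC K u k (fun T w => r * c T w) where
  supp T hT := by
    funext w
    rw [h.supp T hT]
    simp
  eqK T x w := by rw [h.eqK, mul_assoc]
  anti T t ht w := by rw [h.anti T t ht, mul_neg]

/-! ### Sums over the cosets -/

theorem out_mem (w : W G) : w * ((Quotient.mk (QuotientGroup.rightRel K) w).out)⁻¹ ∈ K :=
  QuotientGroup.rightRel_apply.1 (Quotient.mk_out (s := QuotientGroup.rightRel K) w)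

/-- an invariant function takes the same value at the representative -/
theorem inv_out {M : Type} (f : W G → M) (hf : ∀ (h : K) w, f (h * w) = f w) (w : W G) :
    f (Quotient.mk (QuotientGroup.rightRel K) w).out = f w := by
  have h1 := hf ⟨_, out_mem (K := K) w⟩ (Quotient.mk (QuotientGroup.rightRel K) w).out
  rw [← h1]
  simp

/-- right translation of the cosets -/
def qr (K : Subgroup (W G)) (t : W G) : Quotient (QuotientGroup.rightRel K) → Quotient (QuotientGroup.rightRel K) :=
  Quotient.map (fun w => w * t) fun a b h => by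
    have h1 : b * a⁻¹ ∈ K := QuotientGroup.rightRel_apply.1 h
    refine QuotientGroup.rightRel_apply.2 ?_
    have h2 : b * t * (a * t)⁻¹ = b * a⁻¹ := by group
    rw [h2]
    exact h1

theorem qr_mk (t w : W G) : qr K t (Quotient.mk (QuotientGroup.rightRel K) w) =
    Quotient.mk (QuotientGroup.rightRel K) (w * t) := rfl

theorem qr_inj (t : W G) : Function.Injective (qr K t) := by
  intro a b h
  induction a using Quotient.inductionOn
  induction b using Quotient.inductionOn
  rename_i a b
  rw [qr_mk, qr_mk] at h
  have h1 := congrArg (qr K t⁻¹) h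
  rw [qr_mk, qr_mk, mul_assoc, mul_assoc, mul_inv_cancel, mul_one, mul_one] at h1
  exact h1

theorem qsum_right [Fintype (Quotient (QuotientGroup.rightRel K))] {M : Type} [AddCommMonoid M] (f : W G → M)
    (hf : ∀ (h : K) w, f (h * w) = f w) (t : W G) :
    ∑ q : Quotient (QuotientGroup.rightRel K), f (q.out * t) =
      ∑ q : Quotient (QuotientGroup.rightRel K), f q.out := by
  have h1 : Function.Bijective (qr K t) := (Finite.injective_iff_bijective).1 (qr_inj t)
  rw [← (Equiv.ofBijective _ h1).sum_comp fun q => f q.out]
  refine Finset.sum_congr rfl fun q _ => ?_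
  show _ = f (qr K t q).out
  have h2 : qr K t q = Quotient.mk (QuotientGroup.rightRel K) (q.out * t) := by
    conv_lhs => rw [← Quotient.out_eq q]
    rfl
  rw [h2, inv_out f hf]

end gen

end Pool.Agent.V5helper30.FI
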