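import Pool.Agent.V5helper30.FI.Pair

/-!
# The main theorem
-/

set_option autoImplicit false
set_option linter.unusedSectionVars false

noncomputable section

namespace Pool.Agent.V5helper30.FI

open Pool.Agent.W907.SG Pool.Agent.W461.SGN Pool.Agent.Helper655.VN Pool.Agent.RK
open Pool.Agent.N496.CV Pool.Agent.N496.LT

attribute [local instance] VN831.bcFunctor_additive VN831.viaAdd VN831.viaMod

variable {V : Type} [Fintype V] [LinearOrder V] {G : SimpleGraph V}
variable {K : Subgroup (W G)} {k : ℕ}

/-- the harmonic chains over the group von Neumann algebra -/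
theorem harm_zero [Finite (Quotient (QuotientGroup.rightRel K))] (hvan : L2Van G k)
    {g : Finset V → W G → NG K} (hg : EC K (canL : K →* NG K) k g) (h1 : bdf G g = 0) (h2 : cbd g = 0) : g = 0 := by
  classical
  have : Fintype (Quotient (QuotientGroup.rightRel K)) := Fintype.ofFinite _
  have hsum : ∀ T : Finset V, Summable fun w : W G => ‖topcf 1 (g T w)‖ ^ 2 := by
    intro T
    refine top_sum K (Finset.univ.image fun q : Quotient (QuotientGroup.rightRel K) => q.out) ⊥ (g T) ?_ ?_
      (hg.eqK T) (fun w : W G => w) ?_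
    · intro w _
      refine ⟨⟨_, out_mem (K := K) w⟩, _, Finset.mem_image.2 ⟨Quotient.mk (QuotientGroup.rightRel K) w,
        Finset.mem_univ _, rfl⟩, 1, Subgroup.one_mem _, ?_⟩
      simp
    · intro p hp w
      rw [Subgroup.mem_bot] at hp
      rw [hp]
      simp
    · intro w w' p hp p' hp' z e1 e2
      rw [Subgroup.mem_bot] at hp hp'
      rw [hp] at e1
      rw [hp'] at e2
      rw [e1, e2]
  have key : ∀ ℓ : ℂ →+ ℝ, (∀ z, |ℓ z| ≤ ‖z‖) → ∀ T w, ℓ (topcf 1 (g T w)) = 0 := by
    intro ℓ hℓ T w
    have h3 := hvan (fun w T => ℓ (topcf 1 (g T w))) ?_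
    · exact congrFun (congrFun h3 w) T
    · refine ⟨?_, ?_, ?_, ?_, ?_⟩
      · intro w T hT
        rw [hg.supp T hT, Pi.zero_apply, map_zero, map_zero]
      · intro w T t ht
        rw [hg.anti T t ht, map_neg, map_neg]
      · have e1 : ∀ T : Finset V, Summable fun w : W G => (ℓ (topcf 1 (g T w))) ^ 2 := by
          intro T
          refine Summable.of_nonneg_of_le (fun _ => sq_nonneg _) (fun w => ?_) (hsum T)
          rw [← sq_abs]
          exact pow_le_pow_left₀ (abs_nonneg _) (hℓ _) 2
        have e2 : Summable fun x : Finset V × W G => (ℓ (topcf 1 (g x.1 x.2))) ^ 2 := by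
          rw [summable_prod_of_nonneg (fun _ => sq_nonneg _)]
          exact ⟨e1, Summable.of_finite⟩
        exact ((Equiv.prodComm (W G) (Finset V)).summable_iff
          (f := fun x : Finset V × W G => (ℓ (topcf 1 (g x.1 x.2))) ^ 2)).2 e2
      · intro w T
        have e1 := congrArg (fun x => ℓ (topcf 1 x)) (congrFun (congrFun h1 T) w)
        simp only [Pi.zero_apply, map_zero] at e1
        rw [← e1]
        unfold bdf
        rw [map_sum, map_sum]
        refine Finset.sum_congr rfl fun v _ => ?_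
        rw [map_zsmul, map_zsmul, zsmul_eq_mul]
      · intro w T hT
        have e1 := congrArg (fun x => ℓ (topcf 1 x)) (congrFun (congrFun h2 T) w)
        simp only [Pi.zero_apply, map_zero] at e1
        rw [← e1]
        unfold cbd
        rw [if_pos hT, map_sum, map_sum]
        refine Finset.sum_congr rfl fun v _ => ?_
        rw [map_zsmul, map_zsmul, zsmul_eq_mul, map_sub, map_sub]
  have hγ : ∀ T w, topcf 1 (g T w) = 0 := by
    intro T w
    refine Complex.ext ?_ ?_
    · exact key Complex.reAddGroupHom (fun z => Complex.abs_re_le_norm z) T w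
    · exact key Complex.imAddGroupHom (fun z => Complex.abs_im_le_norm z) T w
  funext T w
  apply topcf_ext
  intro h
  rw [← topcf_canL, ← hg.eqK]
  exact hγ T _

theorem canL_star (h : K) : (canL h : NG K) * star (canL h) = 1 := by
  have h1 : star (canL h : NG K) = canL h⁻¹ := Subtype.ext (star_lam h)
  rw [h1, ← map_mul, mul_inv_cancel, map_one]

section param

variable (K)

/-- the difference to the representative -/
def kk (g : (th G).ker) : K :=
  ⟨((g * ((Quotient.mk (QuotientGroup.rightRel (K.subgroupOf (th G).ker)) g).out)⁻¹ : (th G).ker) : W G), by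
    have h1 : g * ((Quotient.mk (QuotientGroup.rightRel (K.subgroupOf (th G).ker)) g).out)⁻¹ ∈
      K.subgroupOf (th G).ker := QuotientGroup.rightRel_apply.1
        (Quotient.mk_out (s := QuotientGroup.rightRel (K.subgroupOf (th G).ker)) g)
    exact h1⟩

theorem mk_left (h : K) (g g' : (th G).ker) (hg : (g' : W G) = h * g) :
    (Quotient.mk (QuotientGroup.rightRel (K.subgroupOf (th G).ker)) g') = Quotient.mk _ g := by
  refine Quotient.sound ?_
  refine QuotientGroup.rightRel_apply.2 ?_
  show (g : W G) * (g' : W G)⁻¹ ∈ K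
  rw [hg]
  have h1 : (g : W G) * ((h : W G) * g)⁻¹ = (h : W G)⁻¹ := by group
  rw [h1]
  exact K.inv_mem h.2

theorem kk_left (h : K) (g g' : (th G).ker) (hg : (g' : W G) = h * g) : kk K g' = h * kk K g := by
  apply Subtype.ext
  show (g' : W G) * (((Quotient.mk (QuotientGroup.rightRel (K.subgroupOf (th G).ker)) g').out : (th G).ker) : W G)⁻¹ =
    (h : W G) * ((g : W G) * (((Quotient.mk (QuotientGroup.rightRel (K.subgroupOf (th G).ker)) g).out :
      (th G).ker) : W G)⁻¹)
  rw [mk_left K h g g' hg, hg, mul_assoc]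

theorem kk_mul (g : (th G).ker) : (g : W G) = (kk K g : W G) *
    (((Quotient.mk (QuotientGroup.rightRel (K.subgroupOf (th G).ker)) g).out : (th G).ker) : W G) := by
  show (g : W G) = ((g : W G) * (((Quotient.mk (QuotientGroup.rightRel (K.subgroupOf (th G).ker)) g).out :
      (th G).ker) : W G)⁻¹) * _
  group

/-- the vectors with the given coordinates -/
def vec (n : ℕ) (b : {i : (davis G).ι // (davis G).deg i = n} ×
    Quotient (QuotientGroup.rightRel (K.subgroupOf (th G).ker)) → NG K) (i : (davis G).ι) (g : (th G).ker) : NG K :=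
  if h : (davis G).deg i = n then b (⟨i, h⟩, Quotient.mk _ g) * canL (kk K g)⁻¹ else 0

theorem vec_fv [Finite (Quotient (QuotientGroup.rightRel (K.subgroupOf (th G).ker)))] (n : ℕ)
    (b : {i : (davis G).ι // (davis G).deg i = n} ×
    Quotient (QuotientGroup.rightRel (K.subgroupOf (th G).ker)) → NG K) :
    FV K (canL : K →* NG K) n (vec K n b) where
  deg i hi := by
    funext g
    unfold vec
    rw [dif_neg hi]
    rfl
  eqK i h g g' hg := by
    unfold vec
    split_ifs with hi
    · rw [mul_assoc, ← map_mul, mk_left K h g g' hg, kk_left K h g g' hg, mul_inv_rev]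
    · rw [zero_mul]
  fin := by
    classical
    have : Fintype (Quotient (QuotientGroup.rightRel (K.subgroupOf (th G).ker))) := Fintype.ofFinite _
    refine ⟨Finset.univ.image fun q : Quotient (QuotientGroup.rightRel (K.subgroupOf (th G).ker)) => q.out,
      fun i g _ => ?_⟩
    exact ⟨kk K g, _, Finset.mem_image.2 ⟨Quotient.mk _ g, Finset.mem_univ _, rfl⟩, kk_mul K g⟩

theorem vec_surj (n : ℕ) {v : (davis G).ι → (th G).ker → NG K} (hv : FV K (canL : K →* NG K) n v) :
    vec K n (fun a => v a.1.1 a.2.out) = v := by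
  funext i g
  unfold vec
  split_ifs with hi
  · exact (hv.eqK i (kk K g) _ g (kk_mul K g)).symm
  · rw [hv.deg i hi]
    rfl

theorem vec_inj (n : ℕ) {b b' : {i : (davis G).ι // (davis G).deg i = n} ×
    Quotient (QuotientGroup.rightRel (K.subgroupOf (th G).ker)) → NG K} (h : vec K n b = vec K n b') : b = b' := by
  funext a
  obtain ⟨⟨i, hi⟩, q⟩ := a
  have h1 := congrFun (congrFun h i) q.out
  unfold vec at h1
  rw [dif_pos hi, dif_pos hi] at h1
  have h2 : b (⟨i, hi⟩, Quotient.mk _ q.out) * canL (kk K q.out)⁻¹ * canL (kk K q.out) =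
      b' (⟨i, hi⟩, Quotient.mk _ q.out) * canL (kk K q.out)⁻¹ * canL (kk K q.out) := by rw [h1]
  rw [mul_assoc, mul_assoc, ← map_mul, inv_mul_cancel, map_one, mul_one, mul_one, Quotient.out_eq] at h2
  exact h2

theorem vec_add (n : ℕ) (b b' : {i : (davis G).ι // (davis G).deg i = n} ×
    Quotient (QuotientGroup.rightRel (K.subgroupOf (th G).ker)) → NG K) :
    vec K n (b + b') = vec K n b + vec K n b' := by
  funext i g
  simp only [Pi.add_apply]
  unfold vec
  split_ifs with hi
  · rw [Pi.add_apply, add_mul]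
  · rw [add_zero]

theorem vec_mul (n : ℕ) (r : NG K) (b : {i : (davis G).ι // (davis G).deg i = n} ×
    Quotient (QuotientGroup.rightRel (K.subgroupOf (th G).ker)) → NG K) :
    vec K n (fun a => r * b a) = fun i g => r * vec K n b i g := by
  funext i g
  unfold vec
  split_ifs with hi
  · rw [mul_assoc]
  · rw [mul_zero]

end param

/-- The main step: solving `∂ e = s c`. -/
theorem solve (hK : K ≤ (th G).ker) (hfin : Finite (Quotient (QuotientGroup.rightRel K)))
    (hfin' : Finite (Quotient (QuotientGroup.rightRel (K.subgroupOf (th G).ker)))) (hvan : L2Van G (k + 1))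
    (v : (davis G).ι → (th G).ker → NG K) (hv : FV K (canL : K →* NG K) (k + 1) v) (h0 : mulD v = 0) :
    ∃ s : NG K, Nz s ∧ ∃ e, FV K (canL : K →* NG K) (k + 2) e ∧ mulD e = fun i g => s * v i g := by
  classical
  have : Fintype (Quotient (QuotientGroup.rightRel K)) := Fintype.ofFinite _
  have : Fintype (Quotient (QuotientGroup.rightRel (K.subgroupOf (th G).ker))) := Fintype.ofFinite _
  obtain ⟨Ψ, p1, p2, p3, p4, p5, p6⟩ := CB.conv V G K (NG K) canL hK
  have hu : ∀ h : K, (canL h : NG K) * star (canL h) = 1 := canL_star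
  -- coordinates
  obtain ⟨I, hI⟩ : ∃ I : Type, I = ({i : (davis G).ι // (davis G).deg i = k + 1} ×
    Quotient (QuotientGroup.rightRel (K.subgroupOf (th G).ker))) := ⟨_, rfl⟩
  obtain ⟨fI, L, hL, hLs, hLi, hLa, hLm⟩ : ∃ (_ : Fintype I) (L : (I → NG K) → (Finset V → W G → NG K)),
      (∀ b, EC K canL (k + 1) (L b)) ∧ (∀ c, EC K canL (k + 1) c → ∃ b, L b = c) ∧ Function.Injective L ∧
      (∀ b b', L (b + b') = L b + L b') ∧ (∀ (r : NG K) b, L (fun a => r * b a) = fun T w => r * L b T w) := by
    subst hI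
    refine ⟨inferInstance, fun b => Ψ (vec K (k + 1) b), ?_, ?_, ?_, ?_, ?_⟩
    · intro b
      exact EC.of (p1 _ _ (vec_fv K (k + 1) b))
    · intro c hc
      obtain ⟨x, hx, rfl⟩ := p2 (k + 1) c hc.to
      exact ⟨_, congrArg Ψ (vec_surj K (k + 1) hx)⟩
    · intro b b' h
      exact vec_inj K (k + 1) (p3 h)
    · intro b b'
      show Ψ (vec K (k + 1) (b + b')) = _
      rw [vec_add, p4]
    · intro r b
      funext T w
      show Ψ (vec K (k + 1) (fun a => r * b a)) T w = _
      rw [vec_mul, p6]
  -- the Laplacian in coordinates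
  have hex : ∀ b : I → NG K, ∃ b', L b' = lap (L b) := fun b => hLs _ (hL b).lap
  choose φ hφ using hex
  let Φ : (I → NG K) →ₗ[NG K] (I → NG K) :=
    { toFun := φ
      map_add' := fun b b' => by
        apply hLi
        rw [hφ, hLa, lap_add, hLa, hφ, hφ]
      map_smul' := fun r b => by
        apply hLi
        show L (φ (fun a => r * b a)) = L (fun a => r * φ b a)
        rw [hφ, hLm, lap_mul, hLm, hφ] }
  obtain ⟨A, hA⟩ : ∃ A : Matrix I I (NG K), ∀ b, Matrix.vecMul b A = φ b := by
    refine ⟨LinearMap.toMatrixRight' Φ, fun b => ?_⟩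
    have h1 := LinearMap.congr_fun (LinearMap.toMatrixRight'.symm_apply_apply Φ) b
    exact h1
  have hinj : ∀ x : I → NG K, Matrix.vecMul x A = 0 → x = 0 := by
    intro x hx
    rw [hA] at hx
    have h1 : L 0 = 0 := by
      have := hLa 0 0
      rw [add_zero] at this
      exact left_eq_add.1 this
    have h2 : lap (L x) = 0 := by rw [← hφ, hx, h1]
    obtain ⟨h3, h4⟩ := lap_ker (vn_NG (G := K)) hu (hL x) h2
    have h5 := harm_zero hvan (hL x) h3 h4
    apply hLi
    rw [h5, h1]
  -- solve the equation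
  obtain ⟨b, hb⟩ := hLs _ (EC.of (p1 _ _ hv))
  obtain ⟨s, z, hs, hz⟩ := Pool.Agent.RK.OreMat.ore_mat (vn_NG (G := K)) A hinj b
  rw [hA] at hz
  have h1 : (fun T w => s * Ψ v T w) = lap (L z) := by
    rw [← hφ, ← hz, hLm, hb]
  have h2 : bdf G (Ψ v) = 0 := by
    rw [← p5 _ _ hv, h0]
    have := p4 0 0
    rw [add_zero] at this
    exact left_eq_add.1 this
  have h3 : bdf G (lap (L z)) = 0 := by
    rw [← h1, bdf_mul, h2]
    funext T w
    simp
  have h4 : bdf G (cbd (bdf G (L z))) = 0 := by
    unfold lap at h3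
    rw [bdf_add', Pool.Agent.N496.CV.PSUS.bdf_bdf, zero_add] at h3
    exact h3
  have h5 : cbd (bdf G (L z)) = 0 := by
    have h6 := adj hu (hL z).bd.cb (hL z).bd
    rw [h4, pr_zero, mul_zero] at h6
    exact pr_zero_of (vn_NG (G := K)) (hL z).bd.cb (by rw [h6, map_zero])
  have h6 : (fun T w => s * Ψ v T w) = bdf G (cbd (L z)) := by
    rw [h1]
    unfold lap
    rw [h5, add_zero]
  obtain ⟨e, he, hee⟩ := p2 (k + 2) _ (hL z).cb.to
  refine ⟨s, hs, e, he, ?_⟩
  apply p3
  rw [p5 _ _ he, hee, ← h6]
  funext T w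
  rw [p6]

/-- The `L²`-Betti numbers of the subgroups of finite index vanish with the harmonic chains. -/
theorem l2Betti_zero [hf : K.FiniteIndex] (hK : K ≤ (th G).ker) (hvan : L2Van G (k + 1)) :
    VN831.l2Betti K (k + 1) = 0 := by
  have h1 : Finite (Quotient (QuotientGroup.rightRel K)) :=
    Finite.of_equiv _ (QuotientGroup.quotientRightRelEquivQuotientLeftRel K).symm
  have h2 : (K.subgroupOf (th G).ker).FiniteIndex := inferInstance
  have h3 : Finite (Quotient (QuotientGroup.rightRel (K.subgroupOf (th G).ker))) :=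
    Finite.of_equiv _ (QuotientGroup.quotientRightRelEquivQuotientLeftRel (K.subgroupOf (th G).ker)).symm
  exact final (res (dac len) CB.conv) V G K k hK fun v hv h0 => solve hK h1 h3 hvan v hv h0

end Pool.Agent.V5helper30.FI
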