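import Pool.Agent.V5helper30.FI.Lap

/-!
# The pairing of the equivariant chains
-/

set_option autoImplicit false
set_option linter.unusedSectionVars false

noncomputable section

namespace Pool.Agent.V5helper30.FI

open Pool.Agent.W907.SG Pool.Agent.W461.SGN Pool.Agent.Helper655.VN Pool.Agent.RK
open Pool.Agent.N496.CV Pool.Agent.N496.LT

variable {V : Type} [Fintype V] [LinearOrder V] {G : SimpleGraph V} {R : Type} [Ring R] [StarRing R]
variable {K : Subgroup (W G)} {u : K →* R} {k : ℕ}

theorem star_zs (n : ℤ) (a : R) : star (n • a) = n • star a := by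
  rw [zsmul_eq_mul, zsmul_eq_mul, star_mul, star_intCast, (Int.cast_commute n (star a)).eq]

/-- the pairing -/
def pr (K : Subgroup (W G)) [Fintype (Quotient (QuotientGroup.rightRel K))] (x y : Finset V → W G → R) : R :=
  ∑ q : Quotient (QuotientGroup.rightRel K), ∑ T : Finset V, x T q.out * star (y T q.out)

theorem pr_star [Fintype (Quotient (QuotientGroup.rightRel K))] (x y : Finset V → W G → R) :
    star (pr K x y) = pr K y x := by
  unfold pr
  rw [star_sum]
  refine Finset.sum_congr rfl fun q _ => ?_
  rw [star_sum]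
  refine Finset.sum_congr rfl fun T _ => ?_
  rw [star_mul, star_star]

theorem pr_add [Fintype (Quotient (QuotientGroup.rightRel K))] (x x' y : Finset V → W G → R) :
    pr K (x + x') y = pr K x y + pr K x' y := by
  unfold pr
  rw [← Finset.sum_add_distrib]
  refine Finset.sum_congr rfl fun q _ => ?_
  rw [← Finset.sum_add_distrib]
  refine Finset.sum_congr rfl fun T _ => ?_
  simp only [Pi.add_apply]
  rw [add_mul]

theorem pr_zero [Fintype (Quotient (QuotientGroup.rightRel K))] (y : Finset V → W G → R) :
    pr K 0 y = 0 := by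
  unfold pr
  simp

/-- reindexing -/
theorem sum_compl {M : Type} [AddCommMonoid M] (F : V → Finset V → M) :
    ∑ T : Finset V, ∑ v ∈ Tᶜ, F v (insert v T) = ∑ S : Finset V, ∑ t ∈ S, F t S := by
  classical
  rw [Finset.sum_sigma', Finset.sum_sigma']
  refine Finset.sum_bij' (fun a _ => ⟨insert a.2 a.1, a.2⟩) (fun a _ => ⟨a.1.erase a.2, a.2⟩) ?_ ?_ ?_ ?_ ?_
  · rintro ⟨T, v⟩ h
    simp
  · rintro ⟨S, t⟩ h
    simp
  · rintro ⟨T, v⟩ h
    have h1 : v ∉ T := by simpa using h
    simp [Finset.erase_insert h1]
  · rintro ⟨S, t⟩ h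
    have h1 : t ∈ S := by simpa using h
    simp [Finset.insert_erase h1]
  · rintro ⟨T, v⟩ h
    rfl

/-- the adjunction -/
theorem adj [Fintype (Quotient (QuotientGroup.rightRel K))] (hu : ∀ h : K, u h * star (u h) = 1)
    {x y : Finset V → W G → R} (hx : EC K u (k + 1) x) (hy : EC K u k y) :
    pr K x (cbd y) = 2 * pr K (bdf G x) y := by
  classical
  have hinv : ∀ (S T : Finset V) (h : K) (w : W G), x S (h * w) * star (y T (h * w)) = x S w * star (y T w) := by
    intro S T h w
    rw [hx.eqK, hy.eqK, star_mul, mul_assoc, ← mul_assoc (u h⁻¹), hu, one_mul]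
  have h1 : pr K (bdf G x) y = ∑ S : Finset V, ∑ t ∈ S, sg t (S.erase t) •
      ∑ q : Quotient (QuotientGroup.rightRel K), x S q.out * star (y (S.erase t) q.out) := by
    rw [← sum_compl (fun t S => sg t (S.erase t) •
      ∑ q : Quotient (QuotientGroup.rightRel K), x S q.out * star (y (S.erase t) q.out))]
    unfold pr
    rw [Finset.sum_comm]
    refine Finset.sum_congr rfl fun T _ => ?_
    unfold bdf
    simp only [Finset.sum_mul]
    rw [Finset.sum_comm]
    refine Finset.sum_congr rfl fun v hv => ?_
    rw [Finset.erase_insert (Finset.mem_compl.1 hv), Finset.smul_sum]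
    refine Finset.sum_congr rfl fun q _ => ?_
    rw [smul_mul_assoc]
  have h2 : pr K x (cbd y) = ∑ S : Finset V, ∑ t ∈ S, sg t (S.erase t) •
      ∑ q : Quotient (QuotientGroup.rightRel K), (x S q.out * star (y (S.erase t) q.out) -
        x S q.out * star (y (S.erase t) (q.out * (cox G).simple t))) := by
    unfold pr
    rw [Finset.sum_comm]
    refine Finset.sum_congr rfl fun S _ => ?_
    by_cases hS : G.IsClique (S : Set V)
    · have h3 : ∀ q : Quotient (QuotientGroup.rightRel K), x S q.out * star (cbd y S q.out) =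
          ∑ t ∈ S, sg t (S.erase t) • (x S q.out * star (y (S.erase t) q.out) -
            x S q.out * star (y (S.erase t) (q.out * (cox G).simple t))) := by
        intro q
        unfold cbd
        rw [if_pos hS, star_sum, Finset.mul_sum]
        refine Finset.sum_congr rfl fun t _ => ?_
        rw [star_zs, mul_smul_comm, star_sub, mul_sub]
      rw [Finset.sum_congr rfl fun q _ => h3 q, Finset.sum_comm]
      refine Finset.sum_congr rfl fun t _ => ?_
      rw [Finset.smul_sum]
    · have h3 : x S = 0 := hx.supp S fun h => hS h.1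
      simp [h3]
  rw [h1, h2, Finset.mul_sum]
  refine Finset.sum_congr rfl fun S _ => ?_
  rw [Finset.mul_sum]
  refine Finset.sum_congr rfl fun t ht => ?_
  rw [mul_smul_comm]
  congr 1
  rw [Finset.sum_sub_distrib]
  have h3 := qsum_right (K := K) (fun w => x S w * star (y (S.erase t) w)) (fun h w => hinv S (S.erase t) h w)
    ((cox G).simple t)
  have h4 : ∑ q : Quotient (QuotientGroup.rightRel K), x S q.out * star (y (S.erase t) (q.out * (cox G).simple t)) =
      - ∑ q : Quotient (QuotientGroup.rightRel K), x S q.out * star (y (S.erase t) q.out) := by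
    rw [← h3, ← Finset.sum_neg_distrib]
    refine Finset.sum_congr rfl fun q _ => ?_
    rw [hx.anti S t ht, neg_mul, neg_neg]
  rw [h4, sub_neg_eq_add, two_mul]

/-- the other adjunction -/
theorem adj' [Fintype (Quotient (QuotientGroup.rightRel K))] (hu : ∀ h : K, u h * star (u h) = 1)
    {x y : Finset V → W G → R} (hx : EC K u (k + 1) x) (hy : EC K u k y) :
    pr K (cbd y) x = 2 * pr K y (bdf G x) := by
  have h1 := congrArg star (adj hu hx hy)
  rw [pr_star, star_mul, pr_star] at h1
  rw [h1, two_mul]
  simp [mul_two]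

section pos

variable {τ : R →+ ℝ} (hτ : VN R τ)

include hτ in
theorem pr_nonneg [Fintype (Quotient (QuotientGroup.rightRel K))] (x : Finset V → W G → R) : 0 ≤ τ (pr K x x) := by
  unfold pr
  rw [map_sum]
  refine Finset.sum_nonneg fun q _ => ?_
  rw [map_sum]
  refine Finset.sum_nonneg fun T _ => ?_
  have h1 := hτ.nonneg (star (x T q.out))
  rwa [star_star] at h1

include hτ in
theorem pr_zero_of [Fintype (Quotient (QuotientGroup.rightRel K))] {x : Finset V → W G → R} (hx : EC K u k x)
    (h : τ (pr K x x) ≤ 0) : x = 0 := by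
  have h0 : ∀ q : Quotient (QuotientGroup.rightRel K), ∀ T : Finset V, 0 ≤ τ (x T q.out * star (x T q.out)) := by
    intro q T
    have h1 := hτ.nonneg (star (x T q.out))
    rwa [star_star] at h1
  have h1 : τ (pr K x x) = 0 := le_antisymm h (pr_nonneg hτ x)
  unfold pr at h1
  rw [map_sum, Finset.sum_eq_zero_iff_of_nonneg (fun q _ => by
    rw [map_sum]; exact Finset.sum_nonneg fun T _ => h0 q T)] at h1
  have h2 : ∀ q : Quotient (QuotientGroup.rightRel K), ∀ T : Finset V, x T q.out = 0 := by
    intro q T
    have h3 := h1 q (Finset.mem_univ _)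
    rw [map_sum, Finset.sum_eq_zero_iff_of_nonneg (fun T _ => h0 q T)] at h3
    have h4 := h3 T (Finset.mem_univ _)
    have h5 := hτ.faithful (star (x T q.out)) (by rw [star_star]; exact h4)
    exact star_eq_zero.1 h5
  funext T w
  have h3 := hx.eqK T ⟨_, out_mem (K := K) w⟩ (Quotient.mk (QuotientGroup.rightRel K) w).out
  rw [h2, zero_mul] at h3
  simpa using h3

include hτ in
/-- the kernel of the Laplacian -/
theorem lap_ker [Fintype (Quotient (QuotientGroup.rightRel K))] (hu : ∀ h : K, u h * star (u h) = 1)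
    {c : Finset V → W G → R} (hc : EC K u (k + 1) c) (h : lap c = 0) : bdf G c = 0 ∧ cbd c = 0 := by
  have h1 : pr K (lap c) c = 0 := by rw [h, pr_zero]
  unfold lap at h1
  rw [pr_add, adj' hu hc hc.bd] at h1
  have h2 := adj hu hc.cb hc
  have h3 : τ (pr K (cbd c) (cbd c)) = 2 * τ (pr K (bdf G (cbd c)) c) := by
    rw [h2, two_mul, map_add, two_mul]
  have h4 := congrArg τ h1
  rw [map_add, map_zero, two_mul, map_add] at h4
  have h5 := pr_nonneg (K := K) hτ (bdf G c)
  have h6 := pr_nonneg (K := K) hτ (cbd c)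
  refine ⟨pr_zero_of hτ hc.bd (by linarith), pr_zero_of hτ hc.cb (by linarith)⟩

end pos

end Pool.Agent.V5helper30.FI
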